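import Pool.Agent.X166.LT.T11

/-!
# Gaussian tilts can increase the logarithmic Sobolev constant arbitrarily

Q1 is disproved, in its negated form, by isotropic (so centred) measures which are in addition invariant
under all changes of signs of the coordinates. The logarithmic Sobolev constant of these measures is at
most 72 while the tilt by the centred Gaussian of covariance `h I`, `h = 12 L²`, has logarithmic Sobolev
constant at least `L² / 72`, with `L` as large as one likes.

The measure: up to a rescaling of the coordinates which makes it isotropic, the density is proportional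
to `exp (-∑ x_i² / 2)` on the convex body `|s| ≤ L`, `|x_i| ≤ a - κ s² / 2`, `i = 1, …, N`; here
`a = 1 + 36 L²`, `κ` is such that the marginal in `s` is close to the standard Gaussian, and `N` is
huge. Since the walls `|x_i| = a` are far away, almost no mass is lost near each wall, but there are `N`
of them, and together they produce the Gaussian decay in `s`. The tilt makes the mass near the walls
much smaller (by a factor which is exponentially small in `a² / h`), and so this decay disappears:
the marginal in `s` of the tilt is within constants of the uniform measure on `[-L, L]`. The logarithmic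
Sobolev inequality for the measure itself is proved with the monotone transport: in one dimension for
densities more log-concave than the Gaussian, then for the fibres by tensorisation, then for the mixture.
-/

set_option autoImplicit false

namespace Pool.Agent.Results.MP_13a01f_pr.TiltBreaksLSI

open MeasureTheory Set
open scoped ENNReal NNReal Pointwise

/-- `μ (λ A + (1 - λ) B) ≥ μ(A)^λ μ(B)^(1 - λ)` for all non-empty compact `A`, `B` and `λ ∈ [0, 1]` -/
def IsLogConcave {n : ℕ} (μ : Measure (Fin n → ℝ)) : Prop :=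
  ∀ A B : Set (Fin n → ℝ), IsCompact A → IsCompact B → A.Nonempty → B.Nonempty →
    ∀ t ∈ Icc (0 : ℝ) 1, μ A ^ t * μ B ^ (1 - t) ≤ μ (t • A + (1 - t) • B)

/-- `μ` is supported by a compact set -/
def CompactSupport {n : ℕ} (μ : Measure (Fin n → ℝ)) : Prop := ∃ K, IsCompact K ∧ μ Kᶜ = 0

/-- `μ` does not change when the signs of some of the coordinates are changed -/
def Unconditional {n : ℕ} (μ : Measure (Fin n → ℝ)) : Prop :=
  ∀ ε : Fin n → ℝ, (∀ i, ε i = 1 ∨ ε i = -1) → μ.map (fun x i => ε i * x i) = μ

/-- mean zero and covariance the identity -/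
def Isotropic {n : ℕ} (μ : Measure (Fin n → ℝ)) : Prop :=
  (∀ i, ∫ x, x i ∂μ = 0) ∧ ∀ i j, ∫ x, x i * x j ∂μ = if i = j then 1 else 0

/-- squared Euclidean norm -/
def normSq {n : ℕ} (x : Fin n → ℝ) : ℝ := ∑ i, x i ^ 2

/-- squared Euclidean norm of the gradient -/
noncomputable def gradSq {n : ℕ} (f : (Fin n → ℝ) → ℝ) (x : Fin n → ℝ) : ℝ :=
  ∑ i, (fderiv ℝ f x (Pi.single i 1)) ^ 2

/-- `Ent_μ(g) = E g log g - E g log E g` -/
noncomputable def Ent {n : ℕ} (μ : Measure (Fin n → ℝ)) (g : (Fin n → ℝ) → ℝ) : ℝ :=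
  ∫ x, g x * Real.log (g x) ∂μ - (∫ x, g x ∂μ) * Real.log (∫ x, g x ∂μ)

/-- the logarithmic Sobolev constant: the smallest `C` with `Ent_μ(f²) ≤ C E_μ |∇ f|²` for all smooth
functions `f` -/
noncomputable def CLSI {n : ℕ} (μ : Measure (Fin n → ℝ)) : ℝ≥0∞ :=
  ⨅ (C : ℝ≥0) (_ : ∀ f : (Fin n → ℝ) → ℝ, ContDiff ℝ (⊤ : ℕ∞) f →
    Ent μ (fun x => f x ^ 2) ≤ C * ∫ x, gradSq f x ∂μ), (C : ℝ≥0∞)

/-- the probability measure with density proportional to `exp (-|x|² / (2h))` with respect to `μ` -/
noncomputable def tilt {n : ℕ} (h : ℝ) (μ : Measure (Fin n → ℝ)) : Measure (Fin n → ℝ) :=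
  μ.tilted fun x => -normSq x / (2 * h)

/-- Disproof of Q1, by isotropic measures invariant under the changes of signs of the coordinates: there
is no constant `C` with `C_LSI(π γ_h) ≤ C C_LSI(π)` for all `n`, all log-concave probability measures `π`
on `ℝⁿ` with compact support and all `h > 0`. -/
theorem result : ∀ C : ℝ≥0, ∃ (n : ℕ) (π : Measure (Fin n → ℝ)) (h : ℝ), 1 ≤ n ∧
    IsProbabilityMeasure π ∧ IsLogConcave π ∧ CompactSupport π ∧ Isotropic π ∧ Unconditional π ∧
    0 < h ∧ CLSI π ≤ 72 ∧ C * CLSI π < CLSI (tilt h π) := by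
  intro C
  set L : ℝ := 1 + 72 * 72 * C with hL
  have hC : (0 : ℝ) ≤ C := C.2
  have hL1 : 1 ≤ L := by rw [hL]; nlinarith
  obtain ⟨n, π, h1, h2, h3, h4, h5, h6, h7, h8, h9⟩ := Pool.Agent.X166.LT.main L hL1
  have hle : CLSI π ≤ 72 := by
    have : CLSI π ≤ ((72 : ℝ≥0) : ℝ≥0∞) := by
      unfold CLSI
      apply iInf₂_le (72 : ℝ≥0)
      intro f hf
      rw [show (((72 : ℝ≥0) : ℝ)) = 72 by norm_num]
      exact h8 f hf
    simpa using this
  refine ⟨n, π, 12 * L ^ 2, h1, h2, h3, h4, ⟨h6, h7⟩, h5, by positivity, hle, ?_⟩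
  have hge : ENNReal.ofReal (L ^ 2 / 72) ≤ CLSI (tilt (12 * L ^ 2) π) := by
    unfold CLSI
    apply le_iInf₂
    intro c hc
    have := h9 c (fun f hf => hc f hf)
    exact ENNReal.ofReal_le_of_le_toReal (by simpa using this)
  calc (C : ℝ≥0∞) * CLSI π ≤ C * 72 := by gcongr
    _ = ENNReal.ofReal (C * 72) := by
      rw [ENNReal.ofReal_mul hC]
      simp
    _ < ENNReal.ofReal (L ^ 2 / 72) := by
      apply (ENNReal.ofReal_lt_ofReal_iff_of_nonneg (by positivity)).2
      rw [lt_div_iff₀ (by norm_num)]
      nlinarith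
    _ ≤ _ := hge

end Pool.Agent.Results.MP_13a01f_pr.TiltBreaksLSI
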